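import Pool.Agent.H98.Code.Minor
import Pool.Agent.H26.TR.Full
import Pool.Agent.H26.TR.Pair

set_option autoImplicit false

/-!
Note 6894, (6): rows of leaves of a pair code are canonical parts at the neighbour (MP_a46c6f_co).
-/

namespace Pool.Agent.H28.TR

open Finset Pool.Agent.H98.Code Pool.Agent.H26.TR

variable {V : Type} [Fintype V] [DecidableEq V]

/-- `y` is a lift of the row of `m` in the pair code of `M` -/
structure IsRow (L : Submodule (ZMod 2) (V → K)) (r : V) (D : V → K) (M : Finset V) (m : V)
    (y : V → K) : Prop where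
  mem : y ∈ L
  at_m : (y m).1 = 1
  on_M : ∀ v, v ∈ M → v ≠ m → (y v).1 = 0
  off : ∀ v, v ∉ M → v ≠ r → y v = 0 ∨ y v = D v
  at_r : (y r).1 = 0

/-- `y` is constant (zero or nowhere zero) on `M'` -/
def Triv (M' : Finset V) (y : V → K) : Prop := (∀ v ∈ M', y v = 0) ∨ (∀ v ∈ M', y v ≠ 0)

theorem fst_zero_cases (a : K) (h : a.1 = 0) : a = 0 ∨ a = z := by
  revert a; decide

theorem fst_one_of_ne {a : K} (h0 : a ≠ 0) (h1 : a ≠ z) : a.1 = 1 := by
  revert a; decide

/-- a word with one `z` at `g`, with `D` or `0` elsewhere off `r`, and `0` at `r`, is not in `L` -/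
theorem no_one_z {L : Submodule (ZMod 2) (V → K)} {r : V} {D : V → K} (h : Hyp L r D)
    {w v : V → K} (hw : w ∈ L) (hv : v ∈ L) {g : V} (hgr : g ≠ r) (hg : w g = z)
    (hvg : (v g).1 = 1) (hwr : w r = 0)
    (hoff : ∀ u, u ≠ g → u ≠ r → kf (w u) (v u) = 0) : False := by
  have hform := h.iso w hw v hv
  have hone : ∑ u, kf (w u) (v u) = kf (w g) (v g) := by
    apply Finset.sum_eq_single g
    · intro u _ hu
      by_cases hur : u = r
      · rw [hur, hwr]; exact kf_zero_left _
      · exact hoff u hu hur
    · intro hh; exact absurd (Finset.mem_univ _) hh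
  unfold form at hform
  rw [hone, hg, kf_z_left, hvg] at hform
  exact absurd hform (by decide)

theorem kf_same_or_zero {a b D : K} (ha : a = 0 ∨ a = D) (hb : b = 0 ∨ b = D) : kf a b = 0 := by
  rcases ha with rfl | rfl
  · exact kf_zero_left _
  · rcases hb with rfl | rfl
    · exact kf_zero_right _
    · exact kf_self _

variable {L : Submodule (ZMod 2) (V → K)} {r : V} {D : V → K} {P : Finset (Finset V)}

/-- the support of the pointed word -/
def BB (M : Finset V) (r m : V) (y : V → K) : Finset V :=
  univ.filter fun v => v = m ∨ (v ∉ M ∧ v ≠ r ∧ y v ≠ 0)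

/-- **(6) of note 6894** -/
theorem key (h : Hyp L r D) (hP : IsParts L r D P) (hz : NoZ L)
    {M : Finset V} (hM : M ∈ P) {m p : V} (hm : m ∈ M) (hp : p ∈ M) (hpm : p ≠ m)
    {y : V → K} (hy : IsRow L r D M m y) (hleaf : ∀ v, v ∈ M → v ≠ m → (y v = z ↔ v = p))
    (hyr : y r = 0) (hno : ∀ M' ∈ P, M' ≠ M → ∃ v ∈ M', y v = 0)
    {D' : V → K} {P' : Finset (Finset V)} (h' : Hyp L p D') (hP' : IsParts L p D' P')
    (her : (∃ g, g ≠ p ∧ g ∉ BB M r m y ∧ ∃ u ∈ L, (∀ v ∈ BB M r m y, u v = 0 ∨ u v = y v) ∧
        (u p).1 = 0 ∧ u g = z ∧ ∀ v, v ≠ p → v ∉ BB M r m y → v ≠ g → u v = 0) ∨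
      (∃ ψ : V → K, (∀ v, (ψ v).1 = 1) ∧ ∀ q, q ≠ p → q ∉ BB M r m y →
        ∃ u ∈ L, (∀ v ∈ BB M r m y, u v = 0 ∨ u v = y v) ∧ (u p).1 = 0 ∧
          (∀ v, v ≠ p → v ∉ BB M r m y → u v = 0 ∨ u v = ψ v) ∧ u q = ψ q)) :
    BB M r m y ∈ P' := by
  have hrM : r ∉ M := (hP.mem M hM).2.1
  have hpr : p ≠ r := fun h0 => hrM (h0 ▸ hp)
  have hmr : m ≠ r := fun h0 => hrM (h0 ▸ hm)
  have hyp : y p = z := (hleaf p hp hpm).2 rfl
  have hy0M : ∀ v, v ∈ M → v ≠ m → v ≠ p → y v = 0 := by
    intro v hv hvm hvp
    rcases fst_zero_cases _ (hy.on_M v hv hvm) with h1 | h1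
    · exact h1
    · exact absurd ((hleaf v hv hvm).1 h1) hvp
  have hmB : m ∈ BB M r m y := by simp [BB]
  have memB : ∀ v, v ∈ BB M r m y ↔ v = m ∨ (v ∉ M ∧ v ≠ r ∧ y v ≠ 0) := by
    intro v; simp [BB]
  have hpB : p ∉ BB M r m y := by
    rw [memB]
    rintro (h1 | h1)
    · exact hpm h1
    · exact h1.1 hp
  have hrB : r ∉ BB M r m y := by
    rw [memB]
    rintro (h1 | h1)
    · exact hmr h1.symm
    · exact h1.2.1 rfl
  have hy0 : ∀ v, v ≠ p → v ∉ BB M r m y → y v = 0 := by
    intro v hvp hvB
    rw [memB] at hvB
    push Not at hvB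
    by_cases hvM : v ∈ M
    · exact hy0M v hvM hvB.1 hvp
    · by_cases hvr : v = r
      · rw [hvr]; exact hyr
      · exact hvB.2 hvM hvr
  have hyD : ∀ v, v ∈ BB M r m y → v ≠ m → y v = D v ∧ v ∉ M ∧ v ≠ r ∧ y v ≠ 0 := by
    intro v hv hvm
    rw [memB] at hv
    rcases hv with h1 | ⟨h1, h2, h3⟩
    · exact absurd h1 hvm
    · rcases hy.off v h1 h2 with h4 | h4
      · exact absurd h4 h3
      · exact ⟨h4, h1, h2, h3⟩
  have hyB1 : ∀ v, v ∈ BB M r m y → (y v).1 = 1 := by
    intro v hv
    by_cases hvm : v = m
    · rw [hvm]; exact hy.at_m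
    · obtain ⟨h1, -, h3, -⟩ := hyD v hv hvm
      rw [h1]; exact h.letter v h3
  rcases her with ⟨g, hgp, hgB, u, hu, huB, hup, hug, hu0⟩ | ⟨ψ, hψ, hfull⟩
  · exfalso
    -- make the letter at `p` zero
    obtain ⟨v, hv, hvB, hvp, hvg, hv0⟩ : ∃ v ∈ L, (∀ w ∈ BB M r m y, v w = 0 ∨ v w = y w) ∧
        v p = 0 ∧ v g = z ∧ ∀ w, w ≠ p → w ∉ BB M r m y → w ≠ g → v w = 0 := by
      rcases fst_zero_cases _ hup with h1 | h1
      · exact ⟨u, hu, huB, h1, hug, hu0⟩
      · refine ⟨u + y, L.add_mem hu hy.mem, ?_, ?_, ?_, ?_⟩
        · intro w hw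
          rw [Pi.add_apply]
          rcases huB w hw with h2 | h2
          · right; rw [h2, zero_add]
          · left; rw [h2]; exact k_add_self _
        · rw [Pi.add_apply, h1, hyp]; exact k_add_self _
        · rw [Pi.add_apply, hug, hy0 g hgp hgB, add_zero]
        · intro w h2 h3 h4
          rw [Pi.add_apply, hu0 w h2 h3 h4, hy0 w h2 h3, add_zero]
    have hvD : ∀ w, w ≠ g → w ≠ m → w ≠ p → v w = 0 ∨ v w = D w := by
      intro w hwg hwm hwp
      by_cases hwB : w ∈ BB M r m y
      · rcases hvB w hwB with h1 | h1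
        · exact Or.inl h1
        · right; rw [h1]; exact (hyD w hwB hwm).1
      · left; exact hv0 w hwp hwB hwg
    have hvr : r ≠ g → v r = 0 := fun hrg => hv0 r hpr.symm hrB hrg
    by_cases hvm : v m = 0
    · by_cases hgr : g = r
      · -- a union of parts inside the support
        have hk : KD L D r v := by
          refine ⟨hv, ?_, Or.inr (hgr ▸ hvg)⟩
          intro w hw
          by_cases hwm : w = m
          · left; rw [hwm]; exact hvm
          · by_cases hwp : w = p
            · left; rw [hwp]; exact hvp
            · exact hvD w (hgr ▸ hw) hwm hwp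
        have hex : ∃ w, w ≠ r ∧ v w ≠ 0 := by
          by_contra hcon
          push Not at hcon
          exact h.noz v hv hcon (hgr ▸ hvg)
        obtain ⟨w, hwr, hw0⟩ := hex
        have hwB : w ∈ BB M r m y := by
          by_contra hwB
          by_cases hwp : w = p
          · rw [hwp] at hw0; exact hw0 hvp
          · exact hw0 (hv0 w hwp hwB (hgr ▸ hwr))
        have hwm : w ≠ m := by rintro rfl; exact hw0 hvm
        have hwM := (hyD w hwB hwm).2.1
        obtain ⟨M', hM', hwM'⟩ := hP.cover w hwr
        have hne : M' ≠ M := by rintro rfl; exact hwM hwM'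
        rcases hP.union v hk M' hM' with h1 | h1
        · obtain ⟨w', hw', hyw'⟩ := hno M' hM' hne
          have h2 := (mem_sup.1 (h1 hw'))
          have hw'm : w' ≠ m := by
            rintro rfl
            exact Finset.disjoint_left.1 (hP.disj M' hM' M hM hne) hw' hm
          have hw'p : w' ≠ p := by
            rintro rfl
            exact Finset.disjoint_left.1 (hP.disj M' hM' M hM hne) hw' hp
          by_cases hw'B : w' ∈ BB M r m y
          · exact (hyD w' hw'B hw'm).2.2.2 hyw'
          · exact h2.2 (hv0 w' hw'p hw'B (hgr ▸ h2.1))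
        · exact Finset.disjoint_left.1 h1 hwM' (mem_sup.2 ⟨hwr, hw0⟩)
      · -- pair with the full word
        obtain ⟨b, hb, hbD⟩ := h.exists_total
        refine no_one_z h hv hb.1 hgr hvg ?_ (hvr (Ne.symm hgr)) ?_
        · rw [hbD g hgr]; exact h.letter g hgr
        · intro w hwg hwr
          refine kf_same_or_zero (D := D w) ?_ (Or.inr (hbD w hwr))
          by_cases hwm : w = m
          · left; rw [hwm]; exact hvm
          · by_cases hwp : w = p
            · left; rw [hwp]; exact hvp
            · exact hvD w hwg hwm hwp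
    · have hvm' : v m = y m := by
        rcases hvB m hmB with h1 | h1
        · exact absurd h1 hvm
        · exact h1
      by_cases hgM : g ∈ M ∨ g = r
      · -- the difference is a {0,z}-word of the pair code
        have hgm : g ≠ m := by rintro rfl; exact hgB hmB
        have hoffM : ∀ w, w ∉ M → w ≠ r → (y + v) w = 0 ∨ (y + v) w = D w := by
          intro w hw hwr
          have hwg : w ≠ g := by
            rintro rfl
            rcases hgM with h1 | h1
            · exact hw h1
            · exact hwr h1
          have hwm : w ≠ m := by rintro rfl; exact hw hm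
          have hwp : w ≠ p := by rintro rfl; exact hw hp
          rw [Pi.add_apply]
          rcases hy.off w hw hwr with h1 | h1 <;> rcases hvD w hwg hwm hwp with h2 | h2
          · left; rw [h1, h2, add_zero]
          · right; rw [h1, h2, zero_add]
          · right; rw [h1, h2, add_zero]
          · left; rw [h1, h2]; exact k_add_self _
        have hr0 : (y + v) r = 0 ∨ (y + v) r = z := by
          rw [Pi.add_apply, hyr, zero_add]
          by_cases hrg : r = g
          · right; rw [hrg]; exact hvg
          · left; exact hvr hrg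
        have hMz : ∀ w, w ∈ M → ((y + v) w).1 = 0 := by
          intro w hw
          rw [Pi.add_apply]
          by_cases hwm : w = m
          · rw [hwm, hvm', k_add_self]; rfl
          · by_cases hwp : w = p
            · rw [hwp, hyp, hvp, add_zero]; rfl
            · rw [hy0M w hw hwm hwp, zero_add]
              by_cases hwg : w = g
              · rw [hwg, hvg]; rfl
              · have hwB : w ∉ BB M r m y := by
                  rw [memB]
                  rintro (h1 | h1)
                  · exact hwm h1
                  · exact h1.1 hw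
                rw [hv0 w hwp hwB hwg]; rfl
        have := hP.pair_noZ h hz hM (L.add_mem hy.mem hv) hoffM hr0 hMz p hp
        rw [Pi.add_apply, hyp, hvp, add_zero] at this
        exact absurd this (by decide)
      · push Not at hgM
        obtain ⟨M', hM', hgM'⟩ := hP.cover g hgM.2
        have hne : M' ≠ M := by rintro rfl; exact hgM.1 hgM'
        have hd := hP.disj M' hM' M hM hne
        refine no_one_z h hv (hP.mem M' hM').2.2 hgM.2 hvg ?_ (hvr (Ne.symm hgM.2)) ?_
        · simp only [pw, if_neg hgM.2, if_pos hgM']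
          exact h.letter g hgM.2
        · intro w hwg hwr
          by_cases hwM' : w ∈ M'
          · have hwm : w ≠ m := by rintro rfl; exact Finset.disjoint_left.1 hd hwM' hm
            have hwp : w ≠ p := by rintro rfl; exact Finset.disjoint_left.1 hd hwM' hp
            refine kf_same_or_zero (D := D w) (hvD w hwg hwm hwp) ?_
            right
            simp only [pw, if_neg hwr, if_pos hwM']
          · simp only [pw, if_neg hwr, if_neg hwM']
            exact kf_zero_right _
  · -- a full state at `p` containing `y`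
    set D'' : V → K := fun v => if v ∈ BB M r m y then y v else ψ v with hD''
    have hyk : KD L D'' p y := by
      refine ⟨hy.mem, ?_, Or.inr hyp⟩
      intro w hw
      by_cases hwB : w ∈ BB M r m y
      · right; simp only [hD'', if_pos hwB]
      · left; exact hy0 w hw hwB
    have h'' : Hyp L p D'' := by
      refine ⟨h'.iso, h'.noz, h'.split, ?_, ?_⟩
      · intro w _
        simp only [hD'']
        split_ifs with hwB
        · exact hyB1 w hwB
        · exact hψ w
      · intro w hw
        by_cases hwB : w ∈ BB M r m y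
        · refine ⟨y, hyk, ?_⟩
          intro h0
          have := hyB1 w hwB
          rw [h0] at this
          exact absurd this (by decide)
        · obtain ⟨u, hu, huB, hup, huψ, huw⟩ := hfull w hw hwB
          refine ⟨u, ⟨hu, ?_, fst_zero_cases _ hup⟩, ?_⟩
          · intro x hx
            by_cases hxB : x ∈ BB M r m y
            · simp only [hD'', if_pos hxB]
              exact huB x hxB
            · simp only [hD'', if_neg hxB]
              exact huψ x hx hxB
          · rw [huw]
            intro h0
            have := hψ w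
            rw [h0] at this
            exact absurd this (by decide)
    have hDD := h'.unique h'' hz
    have hyk' : KD L D' p y := by
      refine ⟨hy.mem, ?_, Or.inr hyp⟩
      intro w hw
      rw [hDD w hw]
      exact hyk.2.1 w hw
    have hsup : sup p y = BB M r m y := by
      ext w
      rw [Pool.Agent.H26.TR.mem_sup]
      constructor
      · rintro ⟨h1, h2⟩
        by_contra hwB
        exact h2 (hy0 w h1 hwB)
      · intro hwB
        refine ⟨by rintro rfl; exact hpB hwB, ?_⟩
        intro h0
        have := hyB1 w hwB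
        rw [h0] at this
        exact absurd this (by decide)
    obtain ⟨M1, hM1, hmM1⟩ := hP'.cover m hpm.symm
    have hM1B : M1 ⊆ BB M r m y := by
      rcases hP'.union y hyk' M1 hM1 with h1 | h1
      · rwa [hsup] at h1
      · rw [hsup] at h1
        exact absurd hmB (Finset.disjoint_left.1 h1 hmM1)
    have hBM1 : BB M r m y ⊆ M1 := by
      intro w hwB
      by_contra hwM1
      have hwp : w ≠ p := by rintro rfl; exact hpB hwB
      obtain ⟨M2, hM2, hwM2⟩ := hP'.cover w hwp
      have hne : M2 ≠ M1 := by rintro rfl; exact hwM1 hwM2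
      have hd := hP'.disj M2 hM2 M1 hM1 hne
      have hM2B : M2 ⊆ BB M r m y := by
        rcases hP'.union y hyk' M2 hM2 with h1 | h1
        · rwa [hsup] at h1
        · rw [hsup] at h1
          exact absurd hwB (Finset.disjoint_left.1 h1 hwM2)
      obtain ⟨b, hb, hbD⟩ := h.exists_total
      refine no_one_z h (hP'.mem M2 hM2).2.2 hb.1 hpr (by simp [pw]) ?_ ?_ ?_
      · rw [hbD p hpr]; exact h.letter p hpr
      · have : r ∉ M2 := fun h0 => hrB (hM2B h0)
        simp only [pw, if_neg hpr.symm, if_neg this]
      · intro x hxp hxr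
        by_cases hxM2 : x ∈ M2
        · refine kf_same_or_zero (D := D x) ?_ (Or.inr (hbD x hxr))
          right
          have hxB := hM2B hxM2
          have hxm : x ≠ m := by
            rintro rfl
            exact Finset.disjoint_left.1 hd hxM2 hmM1
          simp only [pw, if_neg hxp, if_pos hxM2]
          rw [hDD x hxp]
          simp only [hD'', if_pos hxB]
          exact (hyD x hxB hxm).1
        · simp only [pw, if_neg hxp, if_neg hxM2]
          exact kf_zero_left _
    rw [Finset.Subset.antisymm hBM1 hM1B]
    exact hM1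

end Pool.Agent.H28.TR
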